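import Pool.Agent.H10.GM.Targets1

/-!
# The excluded grid theorem: minimum separators (MSM)
-/

set_option autoImplicit false

namespace Pool.Agent.H60.GM

open Pool.Agent.H55.GW Pool.Agent.H10.GM

theorem sep_symm {V : Type} {D : V → V → Prop} (hD : Sy D) {S Y Z : Set V} (h : Sep D S Y Z) :
    Sep D S Z Y := fun z hz y hy hr => h y hy z hz (RIn.sy hD hr)

/-- one side of a minimum separator -/
theorem msm_side (hMEN : T_MEN) {V : Type} [Finite V] {D : V → V → Prop} {S : Finset V}
    {Q Q' : Set V} (hS : Sep D (S : Set V) Q Q')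
    (hmin : ∀ S' : Finset V, Sep D (S' : Set V) Q Q' → S.card ≤ S'.card) :
    ∃ (y : V → V) (P : V → Set V),
      (∀ s ∈ S, y s ∈ Q ∧ RIn D (P s) (y s) s ∧ P s ∩ (S : Set V) = {s}) ∧
      ∀ s ∈ S, ∀ s' ∈ S, s ≠ s' → Disjoint (P s) (P s') := by
  classical
  have hL : Lnk D S.card Q (S : Set V) := by
    refine hMEN V D Set.univ Set.finite_univ (fun u v _ => ⟨Set.mem_univ _, Set.mem_univ _⟩)
      Q (S : Set V) (Set.subset_univ _) (Set.subset_univ _) S.card ?_
    intro S' hS'
    refine hmin S' ?_
    intro x hx z hz hr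
    rcases hr.avoid_or (S : Set V) with h1 | ⟨s, hs, h1, h2⟩
    · exact hS x hx z hz (h1.mono_set fun v hv => hv.2)
    · refine hS' x hx s hs (h1.mono_set ?_)
      rintro v (hv | hv)
      · exact hv.1
      · rw [Set.mem_singleton_iff] at hv
        rw [hv]
        exact h2.left_mem
  obtain ⟨x, y, T, h1, h2⟩ := hL
  have hinj : Function.Injective y := (lnk_inj (fun i => (h1 i).2.2) h2).2
  have hsurj : ∀ s ∈ S, ∃ i, y i = s := by
    have h3 : (Finset.univ.image y) = S := by
      apply Finset.eq_of_subset_of_card_le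
      · intro s hs
        obtain ⟨i, -, rfl⟩ := Finset.mem_image.1 hs
        exact_mod_cast (h1 i).2.1
      · rw [Finset.card_image_of_injective _ hinj]
        simp
    intro s hs
    rw [← h3] at hs
    obtain ⟨i, -, hi⟩ := Finset.mem_image.1 hs
    exact ⟨i, hi⟩
  refine ⟨fun s => if h : ∃ i, y i = s then x h.choose else s,
    fun s => if h : ∃ i, y i = s then T h.choose else ∅, ?_, ?_⟩
  · intro s hs
    have h := hsurj s hs
    simp only [dif_pos h]
    have hc : y h.choose = s := h.choose_spec
    refine ⟨(h1 _).1, ?_, ?_⟩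
    · have h4 := (h1 h.choose).2.2
      rwa [hc] at h4
    · ext v
      simp only [Set.mem_inter_iff, Finset.mem_coe, Set.mem_singleton_iff]
      constructor
      · rintro ⟨hv, hvS⟩
        obtain ⟨i, hi⟩ := hsurj v hvS
        by_contra hne
        have hii : h.choose ≠ i := by
          intro he
          apply hne
          rw [← hi, ← he, hc]
        have h5 : v ∈ T i := by
          rw [← hi]
          exact (h1 i).2.2.right_mem
        exact Set.disjoint_left.1 (h2 _ _ hii) hv h5
      · intro hv
        rw [hv]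
        refine ⟨?_, hs⟩
        have h5 := (h1 h.choose).2.2.right_mem
        rwa [hc] at h5
  · intro s hs s' hs' hne
    have h := hsurj s hs
    have h' := hsurj s' hs'
    simp only [dif_pos h, dif_pos h']
    refine h2 _ _ ?_
    intro he
    apply hne
    rw [← h.choose_spec, ← h'.choose_spec, he]

/-- MSM -/
theorem pf_MSM (hMEN : T_MEN) : T_MSM := by
  classical
  intro V _ D hD k Y Z hL
  have hex : ∃ n, ∃ S : Finset V, S.card = n ∧ Sep D (S : Set V) Y Z := by
    by_contra hcon
    push Not at hcon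
    refine hL (hMEN V D Set.univ Set.finite_univ (fun u v _ => ⟨Set.mem_univ _, Set.mem_univ _⟩)
      Y Z (Set.subset_univ _) (Set.subset_univ _) k ?_)
    intro S hS
    exact absurd hS (hcon S.card S rfl)
  obtain ⟨S, hSc, hS⟩ := Nat.find_spec hex
  have hmin : ∀ S' : Finset V, Sep D (S' : Set V) Y Z → S.card ≤ S'.card := by
    intro S' hS'
    rw [hSc]
    exact Nat.find_min' hex ⟨S', rfl, hS'⟩
  refine ⟨S, ?_, hS, ?_⟩
  · by_contra hcon
    push Not at hcon
    exact hL (hMEN V D Set.univ Set.finite_univ (fun u v _ => ⟨Set.mem_univ _, Set.mem_univ _⟩)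
      Y Z (Set.subset_univ _) (Set.subset_univ _) k fun S' hS' => hcon.trans (hmin S' hS'))
  · rintro Q (rfl | rfl)
    · exact msm_side hMEN hS hmin
    · exact msm_side hMEN (sep_symm hD hS) fun S' hS' => hmin S' (sep_symm hD hS')

end Pool.Agent.H60.GM
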