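import Pool.Agent.H10.GM.Targets2

/-!
# The excluded grid theorem: the whole graph (TOP)
-/

set_option autoImplicit false

namespace Pool.Agent.H60.GM

open Pool.Agent.H55.GW Pool.Agent.H10.GM

/-- a component of the whole graph has no neighbours -/
theorem nb_comp_empty {V : Type} {E : V → V → Prop} (hE : Sy E) {K : Set V}
    (hK : Cmp E Set.univ ∅ K) : Nb E K = ∅ := by
  ext x
  simp only [Set.mem_empty_iff_false, iff_false]
  rintro ⟨hx, c, hc, hxc⟩
  exact hx (hK.absorb hc ⟨Set.mem_univ _, by simp⟩ (hE x c hxc))

theorem dg_false {V : Type} (U : Set V) (u : V) : dg (fun _ _ : V => False) U u = 0 := by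
  unfold dg
  simp

/-- TOP -/
theorem pf_TOP (hNLS : T_NLS) : T_TOP := by
  intro V _ _ E hE w hw h
  -- Step 1: components
  have step1 : ∀ K, Cmp E Set.univ ∅ K → HN E w K := by
    intro K hK
    have hNK := nb_comp_empty hE hK
    have hcK : Cn E K := hK.cn hE
    obtain ⟨v, hv⟩ := hcK.1
    refine hNLS V E hE w K {v} hcK.1 ?_ ?_
    · rw [hNK, Set.empty_union]
      calc ({v} ∩ K : Set V).ncard ≤ ({v} : Set V).ncard :=
            Set.ncard_le_ncard Set.inter_subset_left (Set.toFinite _)
        _ = 1 := Set.ncard_singleton v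
        _ ≤ w := hw
    · intro C' hC'
      have hsub := hC'.sub
      have hvC : v ∉ C' := fun hv' => (hsub hv').2 rfl
      have hnb : Nb E C' ⊆ {v} := by
        intro x hx
        rcases hC'.nb_sub hE hx with h1 | h1
        · rw [hNK] at h1
          exact absurd h1 (by simp)
        · exact h1.1
      have hcn' := hC'.cn hE
      obtain ⟨y, hy⟩ := hcn'.1
      have hvN : v ∈ Nb E C' := by
        obtain ⟨a, ha, b, hb, hab⟩ := hcK.touch_of_not_subset (A := C') (hsub hy).1 hy hv hvC
        have hbN : b ∈ Nb E C' := ⟨hb.2, a, ha.2, hE a b hab⟩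
        have hbv : b = v := hnb hbN
        rwa [hbv] at hbN
      refine h C' ⟨⟨{v}, fun _ _ => False, ?_⟩, ?_⟩
      · exact
          { cnC := hcn'
            cnU := Cn.single v
            sy := fun _ _ h => h
            le := fun _ _ h => h.elim
            dj := by
              rw [Set.disjoint_singleton_left]
              exact hvC
            nb := hnb
            d3 := fun u _ => by rw [dg_false]; omega
            d2 := fun u _ => by rw [dg_false]; omega
            d1 := ⟨v, hvN, by rw [dg_false]; omega⟩ }
      · calc (Nb E C').ncard ≤ ({v} : Set V).ncard := Set.ncard_le_ncard hnb (Set.toFinite _)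
          _ = 1 := Set.ncard_singleton v
          _ ≤ 1 := le_refl _
  -- Step 2: the whole graph
  have hNu : Nb E (Set.univ : Set V) = ∅ := by
    ext x
    simp only [Set.mem_empty_iff_false, iff_false]
    rintro ⟨hx, -⟩
    exact hx (Set.mem_univ _)
  have step2 : HN E w Set.univ := by
    refine hNLS V E hE w Set.univ ∅ Set.univ_nonempty ?_ step1
    rw [hNu]
    simp
  obtain ⟨c, hc, -⟩ := step2 (fun _ => ⟨0, hw⟩) (by rw [hNu]; exact Set.injOn_empty _)
  exact ⟨c, hc⟩

end Pool.Agent.H60.GM
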