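import Pool.Agent.H53.GM.Basic
import Pool.Agent.H53.RG.Defs

/-!
# Board gm2_modules, row COL: valid colourings of infinite templates
-/

set_option autoImplicit false
set_option linter.unusedVariables false

namespace Pool.Agent.H60.GM

open Pool.Agent.H68.BP Pool.Agent.H58.SF Pool.Agent.H53.GC Pool.Agent.H53.GR Pool.Agent.H53.GM
open Pool.Agent.H53.RG
open Classical Filter

theorem pf_COL : Pool.Agent.H53.GM.T_COL := by
  intro τ σ N F Al A 𝔸 hT
  -- finite substructures
  have h1 : ∀ T : Finset A, ∃ M : Str τ A, (∀ D ∈ F, ∀ f : Fin N → A, (∀ v, f v ∈ T) →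
      ¬ IsHom D M f) ∧ ∀ (l : Fin σ.m) (z : Fin (σ.ar l) → A), (∀ i, z i ∈ T) → 𝔸 l z →
        ∃ c, Al l c ∧ ∃ h : τ.ar c = σ.ar l, M c (fun i => z (Fin.cast h i)) := by
    intro T
    let g : Fin T.card ≃ T := T.equivFin.symm
    let 𝕏 : Str σ (Fin T.card) := fun l z => 𝔸 l (fun i => (g (z i)).1)
    obtain ⟨M, hM, hC⟩ := (hT T.card 𝕏).1 ⟨fun i => (g i).1, fun l z hz => hz⟩
    refine ⟨fun l z => ∃ z' : Fin (τ.ar l) → Fin T.card, M l z' ∧ ∀ i, z i = (g (z' i)).1,
      ?_, ?_⟩
    · intro D hD f hf hom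
      refine hM D hD (fun v => g.symm ⟨f v, hf v⟩) fun l z hz => ?_
      obtain ⟨z', h2, h3⟩ := hom l z hz
      have e : (fun i => g.symm ⟨f (z i), hf (z i)⟩) = z' := by
        funext i
        rw [Equiv.symm_apply_eq]
        exact Subtype.ext (h3 i)
      rw [e]
      exact h2
    · intro l z hz hA
      have h2 : 𝕏 l (fun i => g.symm ⟨z i, hz i⟩) := by
        change 𝔸 l (fun i => (g (g.symm ⟨z i, hz i⟩)).1)
        simp only [Equiv.apply_symm_apply]
        exact hA
      obtain ⟨c, h3, h4, h5⟩ := hC l _ h2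
      refine ⟨c, h3, h4, fun i => g.symm ⟨z (Fin.cast h4 i), hz _⟩, h5, fun i => ?_⟩
      rw [Equiv.apply_symm_apply]
  choose M hM1 hM2 using h1
  refine ⟨fun l z => ∀ᶠ T in ((cone A : Ultrafilter (Finset A)) : Filter (Finset A)), M T l z,
    ?_, ?_⟩
  · intro D hD f hom
    have h2 : ∀ᶠ T in ((cone A : Ultrafilter (Finset A)) : Filter (Finset A)),
        ∀ (l : Fin τ.m) (z : Fin (τ.ar l) → Fin N), D l z → M T l (fun i => f (z i)) := by
      rw [eventually_all]
      intro l
      rw [eventually_all]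
      intro z
      by_cases hz : D l z
      · exact (hom l z hz).mono fun T hT _ => hT
      · exact Eventually.of_forall fun T h => absurd h hz
    have h3 := cone_mem (Finset.univ.image f)
    obtain ⟨T, h4, h5⟩ := (h2.and h3).exists
    exact hM1 T D hD f (fun v => h5 (Finset.mem_image_of_mem f (Finset.mem_univ v)))
      fun l z hz => h4 l z hz
  · intro l z hz
    have h2 : ∀ᶠ T in ((cone A : Ultrafilter (Finset A)) : Filter (Finset A)),
        ∃ c, Al l c ∧ ∃ h : τ.ar c = σ.ar l, M T c (fun i => z (Fin.cast h i)) := by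
      refine (cone_mem (Finset.univ.image z)).mono fun T hT => ?_
      exact hM2 T l z (fun i => hT (Finset.mem_image_of_mem z (Finset.mem_univ i))) hz
    by_contra hcon
    push Not at hcon
    have h3 : ∀ c : Fin τ.m, ∀ᶠ T in ((cone A : Ultrafilter (Finset A)) : Filter (Finset A)),
        ¬ (Al l c ∧ ∃ h : τ.ar c = σ.ar l, M T c (fun i => z (Fin.cast h i))) := by
      intro c
      by_cases hc : Al l c
      · by_cases h : τ.ar c = σ.ar l
        · have h4 := hcon c hc h
          refine h4.mono fun T hT h5 => ?_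
          obtain ⟨_, _, h6⟩ := h5
          exact hT h6
        · exact Eventually.of_forall fun T h5 => h h5.2.choose
      · exact Eventually.of_forall fun T h5 => hc h5.1
    rw [← eventually_all] at h3
    obtain ⟨T, h4, h5⟩ := (h2.and h3).exists
    obtain ⟨c, hc⟩ := h4
    exact h5 c hc

end Pool.Agent.H60.GM
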