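import Pool.Agent.H53.GM.Basic

/-!
# Board gm2_modules, row CSG: the system of all configurations is good
-/

set_option autoImplicit false
set_option linter.unusedVariables false

namespace Pool.Agent.H60.GM

open Pool.Agent.H68.BP Pool.Agent.H58.SF Pool.Agent.H53.GC Pool.Agent.H53.GR Pool.Agent.H53.GM
open Classical

variable {τ σ : Sig} {N k L : ℕ} {W J : Type}

theorem rse_tp_congr {M : Str τ W} {a b : J → W} {e : Finset J} (h : ∀ i ∈ e, a i = b i) :
    rse e (tp N M a) = rse e (tp N M b) := by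
  have key : ∀ a b : J → W, (∀ i ∈ e, a i = b i) → rse e (tp N M a) ⊆ rse e (tp N M b) := by
    rintro a b h q ⟨⟨h1, f, h2, h3⟩, h4⟩
    refine ⟨⟨h1, f, h2, fun v i hi => ?_⟩, h4⟩
    rw [h3 v i hi, h i (h4 v i hi)]
  exact Set.Subset.antisymm (key a b h) (key b a fun i hi => (h i hi).symm)

/-- one realized type gives a good system -/
theorem gd0_of {F : Set (Str τ (Fin N))} {I : Finset (Fin k)}
    {C : Sy (Fin k) (Ty τ N (Fin k)) W} {P : Ty τ N (Fin k)} (hP : Rl F P)
    (h : ∀ g t, C.gd g t → rse (g.image C.pt ∪ I) P = t) : Gd0 F I W C := by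
  obtain ⟨W', hW, M, b, hM, hb⟩ := hP
  refine ⟨W', hW, M, fun x => b (C.pt x), b, hM, fun g t hg b' hI hx => ?_⟩
  rw [← h g t hg, ← hb]
  refine rse_tp_congr fun i hi => ?_
  rcases Finset.mem_union.1 hi with hi | hi
  · obtain ⟨x, hxg, rfl⟩ := Finset.mem_image.1 hi
    exact hx x hxg
  · exact hI i hi

theorem vr_pts (lb : Fin k → Rg L) (e : Finset (Fin k)) : vr (pts lb e) = e := by
  unfold vr pts
  rw [Finset.image_image]
  exact Finset.image_id'

theorem pf_CSG (hDZS : Pool.Agent.H53.GM.T_DZS) (hCSS : Pool.Agent.H53.GM.T_CSS)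
    (hDSU : Pool.Agent.H53.GM.T_DSU) : Pool.Agent.H53.GM.T_CSG := by
  intro τ N k L F I a₀ hF hL ha₀ hAx
  obtain ⟨hS, hE⟩ := hCSS τ N k L F I a₀ hF hL ha₀
  obtain ⟨hz, hs⟩ := hDZS τ N k L F I a₀ _ _ ha₀ hS
  have hkd := finite_kd τ N k
  have hty := finite_ty τ N (Fin k)
  have hfin : Finite (CfI L F I a₀) := by
    unfold CfI
    infer_instance
  -- there is a configuration
  have hne : Nonempty (CfI L F I a₀) := by
    obtain ⟨P, hP, hPa⟩ := ha₀
    refine ⟨⟨(0, fun _ => none, fun _ => P), ?_⟩⟩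
    refine ⟨fun c => ⟨hP, hPa⟩, fun v _ => trivial, fun v _ v' _ => ?_, Or.inl fun v _ => rfl⟩
    refine ⟨Nat.le_succ _, Nat.le_succ _, fun q q' h => ?_⟩
    simp at h
  -- the guards of `cS`
  have hpt : ∀ (q : CfI L F I a₀) (e : Finset (Fin k)),
      (e.image (fun v => (q, v))).image (cS L F I a₀).pt = pts q.1.2.1 e := by
    intro q e
    rw [Finset.image_image]
    rfl
  have hpt2 : ∀ (q : CfI L F I a₀) (e : Finset (Fin k)),
      (e.image (fun v => (q, v))).image (fun x : CfI L F I a₀ × Fin k => x.2) = e := by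
    intro q e
    rw [Finset.image_image]
    exact Finset.image_id'
  have hne2 : ∀ (q : CfI L F I a₀) (e : Finset (Fin k)), e.Nonempty → (pts q.1.2.1 e).Nonempty :=
    fun q e he => he.image _
  refine ⟨fun c => ?_, fun d => ?_⟩
  · refine hDSU (Fin k) (Ty τ N (Fin k)) (bC F I) N (Gd0 F I) hAx (CfI L F I a₀) (Fin k) _ a₀
      (hz c) ⟨_, hE, ?_, rfl⟩ ?_ ?_
    · rintro ⟨v, hv⟩
      simp at hv
    · rintro g t ⟨κ, ⟨q, e, _, _, rfl, _⟩, _, _⟩
      refine ⟨q, fun x hx => ?_⟩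
      obtain ⟨v, _, rfl⟩ := Finset.mem_image.1 hx
      rfl
    · intro q
      refine gd0_of (q.2.mx c).1.1 ?_
      rintro g t ⟨⟨κ, ⟨q', e, hd, _, rfl, rfl⟩, hSn, rfl⟩, hq⟩
      change rse ((e.image (fun v => (q', v))).image
        (fun x : CfI L F I a₀ × Fin k => x.2) ∪ I) (q.1.2.2 c) = _
      rw [hpt2]
      rcases e.eq_empty_or_nonempty with rfl | he
      · have e1 : (kd I a₀ q'.1.1 q'.1.2.1 q'.1.2.2 ∅ : Kd τ N k) =
            (fun _ => a₀, fun _ => a₀) := by
          unfold kd rsG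
          rw [if_pos]
          exact Finset.image_empty _
        rw [e1, Finset.empty_union]
        exact (q.2.mx c).2
      · obtain ⟨v, hv⟩ := he
        have h1 : q' = q := hq (q', v) (Finset.mem_image_of_mem _ hv)
        subst h1
        rw [hpt] at hSn
        have h2 := hne2 q' e ⟨v, hv⟩
        have h3 : ¬ AS (pts q'.1.2.1 e) := by
          intro h
          obtain ⟨x, hx⟩ := h.1
          exact hSn ⟨x.1, by rw [← h.2 x hx]; exact hx⟩
        unfold kd rsG
        rw [if_neg h2.ne_empty]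
        change _ = (if AS (pts q'.1.2.1 e) then fun _ => ∅ else
          fun c => rse (vr (pts q'.1.2.1 e) ∪ I) (q'.1.2.2 c)) c
        rw [if_neg h3, vr_pts]
  · refine hDSU (Fin k) (Ty τ N (Fin k)) (bC F I) N (Gd0 F I) hAx (CfI L F I a₀) (Fin k) _ a₀
      (hs d) ⟨_, hE, ?_, rfl⟩ ?_ ?_
    · rintro ⟨v, hv⟩
      simp at hv
    · rintro g t ⟨κ, ⟨q, e, _, _, rfl, _⟩, _, _⟩
      refine ⟨q, fun x hx => ?_⟩
      obtain ⟨v, _, rfl⟩ := Finset.mem_image.1 hx
      rfl
    · intro q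
      refine gd0_of (q.2.mx (ix q.1.1 d)).1.1 ?_
      rintro g t ⟨⟨κ, ⟨q', e, hd, _, rfl, rfl⟩, hSn, rfl⟩, hq⟩
      change rse ((e.image (fun v => (q', v))).image
        (fun x : CfI L F I a₀ × Fin k => x.2) ∪ I) (q.1.2.2 (ix q.1.1 d)) = _
      rw [hpt2]
      rcases e.eq_empty_or_nonempty with rfl | he
      · have e1 : (kd I a₀ q'.1.1 q'.1.2.1 q'.1.2.2 ∅ : Kd τ N k) =
            (fun _ => a₀, fun _ => a₀) := by
          unfold kd rsG
          rw [if_pos]
          exact Finset.image_empty _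
        rw [e1, Finset.empty_union]
        exact (q.2.mx (ix q.1.1 d)).2
      · obtain ⟨v, hv⟩ := he
        have h1 : q' = q := hq (q', v) (Finset.mem_image_of_mem _ hv)
        subst h1
        rw [hpt] at hSn
        have h2 := hne2 q' e ⟨v, hv⟩
        have h3 : ¬ AZ (pts q'.1.2.1 e) := by
          intro h
          obtain ⟨x, hx⟩ := h.1
          exact hSn ⟨x.1, by rw [← h.2 x hx]; exact hx⟩
        unfold kd rsG
        rw [if_neg h2.ne_empty]
        change _ = (if AZ (pts q'.1.2.1 e) then fun _ => ∅ else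
          fun d => rse (vr (pts q'.1.2.1 e) ∪ I) (q'.1.2.2 (ix q'.1.1 d))) d
        rw [if_neg h3, vr_pts]

end Pool.Agent.H60.GM
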