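import Pool.Agent.H53.GM.Basic

/-!
# Board gm2_modules, row KKZ: the part of the sheets below the cut
-/

set_option autoImplicit false
set_option linter.unusedVariables false

namespace Pool.Agent.H60.GM

open Pool.Agent.H68.BP Pool.Agent.H58.SF Pool.Agent.H53.GC Pool.Agent.H53.GR Pool.Agent.H53.GM
open Classical

variable {τ σ : Sig} {N k L : ℕ} {W J : Type}

/-- the disjoint union of the six systems -/
def C2 (C : Sy (Fin k × Rg L) (Kd τ N k) W) : Sy (Fin k) (Ty τ N (Fin k)) (Fin 6 × W) :=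
  ⟨fun x => (C.pt x.2).1, fun G t => ∃ (g : Finset W) (c : Fin 6), (dz C c).gd g t ∧
    G = g.image (fun x => (c, x))⟩

theorem image_pair_injOn (c : Fin 6) : Function.Injective (fun x : W => (c, x)) :=
  fun x y h => (Prod.ext_iff.1 h).2

theorem image_snd (c : Fin 6) (g : Finset W) : (g.image (fun x => (c, x))).image Prod.snd = g := by
  rw [Finset.image_image]
  exact Finset.image_id'

theorem image_C2 (C : Sy (Fin k × Rg L) (Kd τ N k) W) (c : Fin 6) (g : Finset W)
    (i : DecidableEq (Fin k)) : @Finset.image _ _ i (C2 C).pt (g.image (fun x => (c, x))) =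
      @Finset.image _ _ i (dz C c).pt g := by
  rw [Finset.image_image]
  rfl

theorem img_ext {α β γ : Type} (i1 : DecidableEq β) (i2 i3 : DecidableEq γ) (f : α → β)
    (f' : β → γ) (g : Finset α) : @Finset.image _ _ i2 f' (@Finset.image _ _ i1 f g) =
      @Finset.image _ _ i3 (fun x => f' (f x)) g := by
  ext y
  simp

theorem pf_KKZ (hDZS : Pool.Agent.H53.GM.T_DZS) (hDSU : Pool.Agent.H53.GM.T_DSU) :
    Pool.Agent.H53.GM.T_KKZ := by
  intro τ N k L F I a₀ W _ C hF hL ha₀ hS hG hAx U hU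
  obtain ⟨hz, -⟩ := hDZS τ N k L F I a₀ _ _ ha₀ hS
  by_cases hg : ∃ g κ, C.gd g κ
  swap
  · refine hAx.g1 _ _ _ (dz C 0) Prod.fst ?_ (hG 0)
    rintro G t ⟨⟨g, κ, r, c, hgd, _⟩, _⟩
    exact absurd ⟨g, κ, hgd⟩ hg
  obtain ⟨g₀, κ₀, hg₀⟩ := hg
  -- the empty guard
  have hE : C.gd ∅ (fun _ => a₀, fun _ => a₀) := by
    have h1 := hS.dn g₀ κ₀ ∅ hg₀ (Finset.empty_subset _)
    have e : ∀ i : DecidableEq (Fin k × Rg L), (gC L F I a₀).rs
        (@Finset.image _ _ i C.pt (∅ : Finset W)) κ₀ = (fun _ => a₀, fun _ => a₀) := by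
      intro i
      change rsG I a₀ (@Finset.image _ _ i C.pt (∅ : Finset W)) κ₀ = _
      unfold rsG
      rw [if_pos (Finset.image_empty _)]
    rw [e] at h1
    exact h1
  have hZ : ∀ c t, (dz C c).gd ∅ t ↔ t = a₀ := by
    intro c t
    constructor
    · rintro ⟨κ, h1, _, rfl⟩
      rw [hS.un ∅ κ _ h1 hE]
    · rintro rfl
      refine ⟨_, hE, ?_, rfl⟩
      rintro ⟨v, hv⟩
      simp at hv
  have h2 : IsSys (bC F I) (C2 C) := by
    refine ⟨?_, ?_, ?_, ?_⟩
    · rintro G t ⟨g, c, h1, rfl⟩ x hx y hy hxy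
      obtain ⟨x', hx', rfl⟩ := Finset.mem_image.1 (Finset.mem_coe.1 hx)
      obtain ⟨y', hy', rfl⟩ := Finset.mem_image.1 (Finset.mem_coe.1 hy)
      have h3 := (hz c).tr g t h1 hx' hy' hxy
      rw [h3]
    · rintro G t G' ⟨g, c, h1, rfl⟩ hG'
      have e : G' = (G'.image Prod.snd).image (fun x => (c, x)) := by
        ext x
        constructor
        · intro hx
          obtain ⟨y, _, hy⟩ := Finset.mem_image.1 (hG' hx)
          refine Finset.mem_image.2 ⟨x.2, Finset.mem_image_of_mem _ hx, ?_⟩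
          rw [← hy]
        · intro hx
          obtain ⟨y, hy, rfl⟩ := Finset.mem_image.1 hx
          obtain ⟨z, hz', rfl⟩ := Finset.mem_image.1 hy
          obtain ⟨w, _, hw⟩ := Finset.mem_image.1 (hG' hz')
          have h5 : (c, z.2) = z := by rw [← hw]
          rw [h5]
          exact hz'
      have hsub : G'.image Prod.snd ⊆ g := by
        rw [← image_snd c g]
        exact Finset.image_subset_image hG'
      have h3 := (hz c).dn g t (G'.image Prod.snd) h1 hsub
      refine ⟨G'.image Prod.snd, c, ?_, e⟩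
      have e2 : ∀ i : DecidableEq (Fin k), @Finset.image _ _ i (C2 C).pt G' =
          @Finset.image _ _ i (dz C c).pt (G'.image Prod.snd) := by
        intro i
        rw [Finset.image_image]
        rfl
      rw [e2]
      exact h3
    · rintro G t t' ⟨g, c, h1, rfl⟩ ⟨g', c', h1', he⟩
      rcases g.eq_empty_or_nonempty with rfl | ⟨x, hx⟩
      · have h3 : g' = ∅ := by
          rw [Finset.image_empty] at he
          exact Finset.image_eq_empty.1 he.symm
        subst h3
        rw [(hZ c t).1 h1, (hZ c' t').1 h1']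
      · have h3 : (c, x) ∈ g'.image (fun x => (c', x)) := by
          rw [← he]
          exact Finset.mem_image_of_mem _ hx
        obtain ⟨y, _, hy⟩ := Finset.mem_image.1 h3
        have h4 : c' = c := (Prod.ext_iff.1 hy).1
        subst h4
        have h5 : g = g' := by
          rw [← image_snd c' g, he, image_snd]
        subst h5
        exact (hz c').un g t t' h1 h1'
    · rintro G t ⟨g, c, h1, rfl⟩
      rw [image_C2]
      exact (hz c).ok g t h1
  have h3 : Gd0 F I _ (C2 C) := by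
    refine hDSU (Fin k) (Ty τ N (Fin k)) (bC F I) N (Gd0 F I) hAx (Fin 6) W (C2 C) a₀ h2
      ⟨∅, 0, (hZ 0 a₀).2 rfl, (Finset.image_empty _).symm⟩ ?_ ?_
    · rintro G t ⟨g, c, _, rfl⟩
      refine ⟨c, fun x hx => ?_⟩
      obtain ⟨y, _, rfl⟩ := Finset.mem_image.1 hx
      rfl
    · intro c
      refine hAx.g1 _ _ _ (dz C c) Prod.snd ?_ (hG c)
      rintro G t ⟨⟨g, c', h1, rfl⟩, h4⟩
      refine ⟨?_, fun x _ => rfl⟩
      rw [image_snd]
      rcases g.eq_empty_or_nonempty with rfl | ⟨x, hx⟩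
      · rw [(hZ c' t).1 h1]
        exact (hZ c a₀).2 rfl
      · have h5 : c' = c := h4 (c', x) (Finset.mem_image_of_mem _ hx)
        subst h5
        exact h1
  refine hAx.g1 _ _ _ (C2 C) (fun x => (x.2, x.1)) ?_ h3
  rintro G t ⟨⟨g, κ, r, c, h1, h4, rfl, rfl⟩, h5⟩
  have h6 : ∀ x ∈ g, (C.pt x).2 ≠ some none := fun x hx =>
    hU _ (h5 _ (Finset.mem_image_of_mem _ hx))
  have h7 : ∀ x ∈ g, pos (C.pt x).2 r c = c := fun x hx => if_neg (h6 x hx)
  have h8 : g.image (fun x => (x, pos (C.pt x).2 r c)) = g.image (fun x => (x, c)) :=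
    Finset.image_congr fun x hx => by
      change (x, pos (C.pt x).2 r c) = (x, c)
      rw [h7 x hx]
  have h9 : ¬ hasS (g.image C.pt) := by
    rintro ⟨v, hv⟩
    obtain ⟨x, hx, hxv⟩ := Finset.mem_image.1 hv
    exact h6 x hx (by rw [hxv])
  refine ⟨⟨g, c, ⟨κ, h1, h9, ?_⟩, ?_⟩, fun x _ => rfl⟩
  · unfold labK
    rw [if_neg h9]
  · rw [h8]
    exact img_ext _ _ _ _ _ _

end Pool.Agent.H60.GM
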